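import Pool.Agent.Helper59.DG3.Lay
import Pool.Agent.Helper59.DG.LayoutVtx

/-!
# The layout of a grid with threads: frame codes against all vertices

`GF.fr`: the codes of the frame and of the two diagonals; `GX.fr`: the corners and the names of the
frame.  `TReg π`: the vertices of the threads are in the inner region.
-/

set_option autoImplicit false
set_option linter.unusedSectionVars false

namespace Pool.Agent.Helper58.DG3

open Pool.Agent.Helper18.RAC Complex

/-- the codes of the frame -/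
def GE.fr : GE → Prop
  | .nl _ _ _ _ => False
  | .dg _ _ => False
  | .ts _ _ _ => False
  | .tt _ _ _ _ => False
  | .te _ _ _ => False
  | _ => True

/-- the codes of the frame and of the diagonals -/
def GF.fr : GF → Prop
  | .g c => c.fr
  | _ => True

/-- the names of the frame -/
def GN.fr : GN → Prop
  | .F _ _ => False
  | .T _ _ _ _ => False
  | _ => True

/-- the corners and the names of the frame -/
def GX.fr : GX → Prop
  | .v x => x.fr
  | _ => True

/-- the vertices of the threads are in the inner region -/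
def TReg (π : Par) : Prop := ∀ k x y t, (GN.T k x y t).ok π →
  5 < (lay π (.T k x y t)).re ∧ 5 < (lay π (.T k x y t)).im ∧
  (lay π (.T k x y t)).re < 2 * π.M - 1 ∧ (lay π (.T k x y t)).im < 2 * π.M - 1 ∧
  (lay π (.T k x y t)).re + (lay π (.T k x y t)).im < 2 * π.M + 2

namespace LV

open Pool.Agent.Helper82.DG.LV (Bt bt_of seg_box no_int no_par cast_2M cast_M mir mir_seg)

theorem hU_long {M c : ℕ} (h : c < 3 ∨ c + 1 = M) : hU M c = 2 * M + 2 := by
  unfold hU
  rw [if_pos h]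

theorem hU_short {M c : ℕ} (h : 3 ≤ c) (h' : c + 2 ≤ M) : hU M c = 4 := by
  unfold hU
  rw [if_neg (by omega)]

/-- the kinds of points of the layout -/
inductive Kd (M : ℕ) (n s e w : ℝ) : GX → ℝ → ℝ → Prop
  | xf : Kd M n s e w (.X false) 0 n
  | xt : Kd M n s e w (.X true) e 0
  | yf : Kd M n s e w (.Y false) 0 (-s)
  | yt : Kd M n s e w (.Y true) (-w) 0
  | pf (j : ℕ) : (j : ℝ) + 1 ≤ 2 * M → Kd M n s e w (.v (.P false j)) (j + 1) (-1)
  | pt (j : ℕ) : (j : ℝ) + 1 ≤ 2 * M → Kd M n s e w (.v (.P true j)) (-1) (j + 1)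
  | ulf (c : ℕ) : (c : ℝ) + 1 ≤ M → (c < 3 ∨ c + 1 = M) →
      Kd M n s e w (.v (.U false c)) (2 * c + 1) (2 * M + 2)
  | ult (c : ℕ) : (c : ℝ) + 1 ≤ M → (c < 3 ∨ c + 1 = M) →
      Kd M n s e w (.v (.U true c)) (2 * M + 2) (2 * c + 1)
  | usf (c : ℕ) : (3 : ℝ) ≤ c → (c : ℝ) + 2 ≤ M → Kd M n s e w (.v (.U false c)) (2 * c + 1) 4
  | ust (c : ℕ) : (3 : ℝ) ≤ c → (c : ℝ) + 2 ≤ M → Kd M n s e w (.v (.U true c)) 4 (2 * c + 1)
  | cf (j : ℕ) : (j : ℝ) + 2 ≤ 2 * M →
      Kd M n s e w (.v (.C false j false)) (j + 3 / 2) (-1 / 2)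
  | cf' (j : ℕ) : (j : ℝ) + 2 ≤ 2 * M →
      Kd M n s e w (.v (.C false j true)) (j + 3 / 2) (-3 / 4)
  | ct (j : ℕ) : (j : ℝ) + 2 ≤ 2 * M →
      Kd M n s e w (.v (.C true j false)) (-1 / 2) (j + 3 / 2)
  | ct' (j : ℕ) : (j : ℝ) + 2 ≤ 2 * M →
      Kd M n s e w (.v (.C true j true)) (-3 / 4) (j + 3 / 2)
  | qf : Kd M n s e w (.v (.Q false)) (2 * M) (2 * M)
  | qt : Kd M n s e w (.v (.Q true)) (2 * M + 1 / 4) (2 * M + 1 / 4)
  | d (c r : ℕ) : (c : ℝ) + 1 ≤ M → (r : ℝ) + 1 ≤ M → (c = 0 ∨ r = 0) →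
      Kd M n s e w (.v (.D c r)) (2 * c + 2) (2 * r + 2)
  | ft (x : GN) (p q : ℝ) : ¬ x.fr → 5 < p → 5 < q → p < 2 * M - 1 → q < 2 * M - 1 →
      p + q ≤ 2 * M + 2 → Kd M n s e w (.v x) p q

theorem Kd.swap {M : ℕ} {n s e w p q : ℝ} {x : GX} (h : Kd M n s e w x p q) :
    Kd M e w n s x.swap q p := by
  cases h with
  | xf => exact .xt
  | xt => exact .xf
  | yf => exact .yt
  | yt => exact .yf
  | pf j h => exact .pt j h
  | pt j h => exact .pf j h
  | ulf c h h' => exact .ult c h h'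
  | ult c h h' => exact .ulf c h h'
  | usf c h h' => exact .ust c h h'
  | ust c h h' => exact .usf c h h'
  | cf j h => exact .ct j h
  | cf' j h => exact .ct' j h
  | ct j h => exact .cf j h
  | ct' j h => exact .cf' j h
  | qf => exact .qf
  | qt => exact .qt
  | d c r h h' h'' => exact .d r c h' h h''.symm
  | ft x p q hx h1 h2 h3 h4 h5 =>
    refine .ft x.swap q p ?_ h2 h1 h4 h3 (by linarith)
    cases x <;> exact hx

theorem kd {π : Par} (hT : TReg π) {n s e w : ℝ} (_ : 8 ≤ π.M) : ∀ x : GX, x.ok π →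
    Kd π.M n s e w x (layX π n s e w x).re (layX π n s e w x).im
  | .X false, _ => .xf
  | .X true, _ => .xt
  | .Y false, _ => .yf
  | .Y true, _ => .yt
  | .v (.P false j), h => .pf j (by
      have h' : j + 1 ≤ 2 * π.M := h
      exact_mod_cast h')
  | .v (.P true j), h => .pt j (by
      have h' : j + 1 ≤ 2 * π.M := h
      exact_mod_cast h')
  | .v (.U false c), h => by
      have h' : c + 1 ≤ π.M := h
      have h'' : (c : ℝ) + 1 ≤ π.M := by exact_mod_cast h'
      by_cases hc : c < 3 ∨ c + 1 = π.M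
      · have := Kd.ulf (n := n) (s := s) (e := e) (w := w) c h'' hc
        simpa only [layX, lay, hU_long hc] using this
      · have h3 : (3 : ℝ) ≤ c := by exact_mod_cast (show 3 ≤ c by omega)
        have h4 : (c : ℝ) + 2 ≤ π.M := by exact_mod_cast (show c + 2 ≤ π.M by omega)
        have := Kd.usf (M := π.M) (n := n) (s := s) (e := e) (w := w) c h3 h4
        simpa only [layX, lay, hU_short (show 3 ≤ c by omega) (show c + 2 ≤ π.M by omega)] using this
  | .v (.U true c), h => by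
      have h' : c + 1 ≤ π.M := h
      have h'' : (c : ℝ) + 1 ≤ π.M := by exact_mod_cast h'
      by_cases hc : c < 3 ∨ c + 1 = π.M
      · have := Kd.ult (n := n) (s := s) (e := e) (w := w) c h'' hc
        simpa only [layX, lay, hU_long hc] using this
      · have h3 : (3 : ℝ) ≤ c := by exact_mod_cast (show 3 ≤ c by omega)
        have h4 : (c : ℝ) + 2 ≤ π.M := by exact_mod_cast (show c + 2 ≤ π.M by omega)
        have := Kd.ust (M := π.M) (n := n) (s := s) (e := e) (w := w) c h3 h4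
        simpa only [layX, lay, hU_short (show 3 ≤ c by omega) (show c + 2 ≤ π.M by omega)] using this
  | .v (.C false j false), h => .cf j (by
      have h' : j + 1 + 1 ≤ 2 * π.M := h
      have h'' : ((j + 1 + 1 : ℕ) : ℝ) ≤ ((2 * π.M : ℕ) : ℝ) := by exact_mod_cast h'
      push_cast at h''
      linarith)
  | .v (.C false j true), h => .cf' j (by
      have h' : j + 1 + 1 ≤ 2 * π.M := h
      have h'' : ((j + 1 + 1 : ℕ) : ℝ) ≤ ((2 * π.M : ℕ) : ℝ) := by exact_mod_cast h'
      push_cast at h''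
      linarith)
  | .v (.C true j false), h => .ct j (by
      have h' : j + 1 + 1 ≤ 2 * π.M := h
      have h'' : ((j + 1 + 1 : ℕ) : ℝ) ≤ ((2 * π.M : ℕ) : ℝ) := by exact_mod_cast h'
      push_cast at h''
      linarith)
  | .v (.C true j true), h => .ct' j (by
      have h' : j + 1 + 1 ≤ 2 * π.M := h
      have h'' : ((j + 1 + 1 : ℕ) : ℝ) ≤ ((2 * π.M : ℕ) : ℝ) := by exact_mod_cast h'
      push_cast at h''
      linarith)
  | .v (.Q false), _ => .qf
  | .v (.Q true), _ => .qt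
  | .v (.D c r), h => .d c r (by
      have h' : c + 1 ≤ π.M := h.1
      exact_mod_cast h') (by
      have h' : r + 1 ≤ π.M := h.2.1
      exact_mod_cast h') h.2.2
  | .v (.F x y), h => by
      obtain ⟨h1, h2, h3, -⟩ := h
      have e1 : (1 : ℝ) ≤ x := by exact_mod_cast h1
      have e2 : (1 : ℝ) ≤ y := by exact_mod_cast h2
      have e3 : (x : ℝ) + y + 3 ≤ π.M := by exact_mod_cast h3
      refine .ft (.F x y) _ _ id ?_ ?_ ?_ ?_ ?_ <;> simp only [layX, lay] <;> linarith
  | .v (.T k x y t), h => by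
      obtain ⟨h1, h2, h3, h4, h5⟩ := hT k x y t h
      exact .ft (.T k x y t) _ _ id h1 h2 h3 h4 h5.le

section

variable {M : ℕ} {n s e w p q : ℝ} {x : GX} (hM : (8 : ℝ) ≤ M) (hn : 2 * M + 3 < n)
  (hs : 2 * M + 3 < s) (he : 2 * M + 3 < e) (hw : 2 * M + 3 < w)

include hM hn hs he hw

theorem n_ns (h : Kd M n s e w x p q) (h0 : p = 0) (h1 : -s < q) (h2 : q < n) : False := by
  cases h <;> linarith

theorem n_yp (h : Kd M n s e w x p q) (h1 : -s < q) (h2 : q < -1) : False := by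
  cases h <;> linarith

theorem n_xu (h : Kd M n s e w x p q) (h1 : 2 * M + 2 < q) (h2 : q < n) : False := by
  cases h <;> linarith

theorem n_xp (h : Kd M n s e w x p q) (h1 : -1 < q) (h2 : q < 0) (h3 : 2 * M < p) : False := by
  cases h <;> linarith

theorem n_up (h : Kd M n s e w x p q) {c : ℕ} (hc : (c : ℝ) + 1 ≤ M) (h0 : p = 2 * c + 1)
    (h1 : -1 < q) (h2 : q < hU M c) : False := by
  by_cases hl : c < 3 ∨ c + 1 = M
  · rw [hU_long hl] at h2
    have hc3 : (c : ℝ) ≤ 2 ∨ (c : ℝ) + 1 = M := by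
      rcases hl with hl | hl
      · left
        exact_mod_cast (show c ≤ 2 by omega)
      · right
        exact_mod_cast hl
    cases h with
    | cf j hj => exact no_par (a := j + 1) (b := 2 * c + 1) (by push_cast; linarith)
    | cf' j hj => exact no_par (a := j + 1) (b := 2 * c + 1) (by push_cast; linarith)
    | d c' r hc' hr' => exact no_par (a := c) (b := c' + 1) (by push_cast; linarith)
    | ust c' hc' hr' => exact no_par (a := c) (b := 2) (by push_cast; linarith)
    | usf c' hc' hr' =>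
      rcases hc3 with hc3 | hc3 <;> linarith
    | ft x p q hx g1 g2 g3 g4 g5 =>
      rcases hc3 with hc3 | hc3 <;> linarith
    | _ => linarith
  · have hc1 : c + 1 ≤ M := by exact_mod_cast hc
    rw [hU_short (by omega) (by omega)] at h2
    have hc3 : (3 : ℝ) ≤ c := by exact_mod_cast (show 3 ≤ c by omega)
    cases h with
    | cf j hj => exact no_par (a := j + 1) (b := 2 * c + 1) (by push_cast; linarith)
    | cf' j hj => exact no_par (a := j + 1) (b := 2 * c + 1) (by push_cast; linarith)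
    | d c' r hc' hr' => exact no_par (a := c) (b := c' + 1) (by push_cast; linarith)
    | _ => linarith

theorem n_pd (h : Kd M n s e w x p q) {c : ℕ} (hc : (c : ℝ) + 1 ≤ M) (h0 : p = 2 * c + 2)
    (h1 : -1 < q) (h2 : q < 2) : False := by
  cases h with
  | cf j hj => exact no_par (a := j + 1) (b := 2 * c + 2) (by push_cast; linarith)
  | cf' j hj => exact no_par (a := j + 1) (b := 2 * c + 2) (by push_cast; linarith)
  | _ => linarith

theorem n_dd (h : Kd M n s e w x p q) {c : ℕ} (hc : (c : ℝ) + 2 ≤ M)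
    (h0 : q = 2) (h1 : 2 * c + 2 < p) (h2 : p < 2 * c + 4) : False := by
  have hc0 : (0 : ℝ) ≤ c := Nat.cast_nonneg c
  cases h with
  | d c' r hc' hr' => exact no_int (a := c) (b := c') (by linarith) (by linarith)
  | _ => linarith

theorem n_pp (h : Kd M n s e w x p q) {j : ℕ} (h0 : q = -1) (h1 : j + 1 < p) (h2 : p < j + 2) :
    False := by
  cases h with
  | pf j' hj' => exact no_int (a := j) (b := j') (by linarith) (by linarith)
  | _ => linarith

theorem n_pc (h : Kd M n s e w x p q) {j : ℕ} (h0 : -1 < q) (h3 : q < -1 / 2) (h1 : j + 1 < p)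
    (h2 : p < j + 3 / 2) : False := by
  cases h with
  | cf' j' hj' => exact no_int (a := j') (b := j) (by linarith) (by linarith)
  | _ => linarith

theorem n_pc' (h : Kd M n s e w x p q) {j : ℕ} (h0 : -1 < q) (h3 : q < -1 / 2)
    (h1 : j + 3 / 2 < p) (h2 : p < j + 2) : False := by
  cases h with
  | cf' j' hj' => exact no_int (a := j) (b := j') (by linarith) (by linarith)
  | _ => linarith

theorem n_cc (h : Kd M n s e w x p q) (h1 : -3 / 4 < q) (h2 : q < -1 / 2) : False := by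
  cases h <;> linarith

theorem n_uu (h : Kd M n s e w x p q) (h0 : p + q = 4 * M + 1) (h1 : 0 < p) (h2 : p < 2 * M + 2)
    (h3 : 0 < q) (h4 : q < 2 * M + 2) : False := by
  cases h <;> linarith

theorem n_uq (h : Kd M n s e w x p q) (h0 : 2 * M - 1 < p) (h2 : p < 2 * M)
    (h3 : 2 * M < q) (h4 : q < 2 * M + 2) : False := by
  cases h <;> linarith

theorem n_uq' (h : Kd M n s e w x p q) (h0 : 2 * M - 1 < p) (h2 : p < 2 * M + 1 / 4)
    (h3 : 2 * M + 1 / 4 < q) (h4 : q < 2 * M + 2) : False := by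
  cases h <;> linarith

theorem n_qq (h : Kd M n s e w x p q) (h0 : 2 * M < p) (h2 : p < 2 * M + 1 / 4)
    (h3 : 2 * M < q) (h4 : q < 2 * M + 1 / 4) : False := by
  cases h <;> linarith

theorem n_dr (h : Kd M n s e w x p q) (h0 : 2 * M < p) (h2 : p < 2 * M + 2)
    (h3 : 1 < q) (h4 : q < 3) : False := by
  cases h <;> linarith

/-- the chain of the short lines -/
theorem n_uw (h : Kd M n s e w x p q) {c : ℕ} (hc : 3 ≤ c) (h0 : q = 4)
    (h1 : (c = 3 ∧ 2 < p) ∨ 2 * c - 1 < p) (h2 : p < 2 * c + 1) : False := by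
  have hc3 : (3 : ℝ) ≤ c := by exact_mod_cast hc
  have hp : 2 < p := by
    rcases h1 with h1 | h1
    · exact h1.2
    · linarith
  cases h with
  | d c' r hc' hr' hcr =>
    rcases hcr with rfl | rfl
    · rw [Nat.cast_zero] at hp
      linarith
    · rw [Nat.cast_zero] at h0
      linarith
  | usf c' hc' hr' =>
    rcases h1 with ⟨rfl, h1⟩ | h1
    · push_cast at h2
      linarith
    · exact no_int (a := c') (b := c) (by linarith) (by linarith)
  | ust c' hc' hr' => linarith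
  | ult c' hc' hr' => exact no_par (a := c') (b := 2) (by push_cast; linarith)
  | pt j hj => linarith
  | _ => linarith

end

/-- no vertex lies on the edge `k` -/
def Fr (π : Par) (n s e w : ℝ) (k : GF) : Prop :=
  ∀ (x : GX) (p q : ℝ), Kd π.M n s e w x p q →
    (⟨p, q⟩ : ℂ) ∉ openSegment ℝ (layX π n s e w (k.ends π).1) (layX π n s e w (k.ends π).2)

theorem fr_of {π : Par} {n s e w : ℝ} {k : GF}
    (H : ∀ (x : GX) (p q : ℝ), Kd π.M n s e w x p q →
      Bt (layX π n s e w (k.ends π).1).re (layX π n s e w (k.ends π).2).re p →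
      Bt (layX π n s e w (k.ends π).1).im (layX π n s e w (k.ends π).2).im q →
      Bt ((layX π n s e w (k.ends π).1).re + (layX π n s e w (k.ends π).1).im)
        ((layX π n s e w (k.ends π).2).re + (layX π n s e w (k.ends π).2).im) (p + q) → False) :
    Fr π n s e w k := by
  intro x p q hx hz
  obtain ⟨b1, b2, b3⟩ := seg_box hz
  exact H x _ _ hx b1 b2 b3

def Big (M : ℕ) (n s e w : ℝ) : Prop :=
  (8 : ℝ) ≤ M ∧ 2 * M + 3 < n ∧ 2 * M + 3 < s ∧ 2 * M + 3 < e ∧ 2 * M + 3 < w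

section

variable {π : Par} {n s e w : ℝ} (h : Big π.M n s e w)

include h

theorem f_ns : Fr π n s e w .ns := by
  obtain ⟨hM, hn, hs, he, hw⟩ := h
  refine fr_of fun x p q hx b1 b2 b3 => ?_
  simp only [GF.ends, layX] at b1 b2 b3
  obtain ⟨h1, h2⟩ := b2.2.1 (by linarith)
  exact n_ns hM hn hs he hw hx (b1.2.2 rfl) h1 h2

theorem f_yp (j : ℕ) : Fr π n s e w (.g (.yp false j)) := by
  obtain ⟨hM, hn, hs, he, hw⟩ := h
  refine fr_of fun x p q hx b1 b2 b3 => ?_
  simp only [GF.ends, GE.ends, layX, lay] at b1 b2 b3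
  obtain ⟨h1, h2⟩ := b2.1 (by linarith)
  exact n_yp hM hn hs he hw hx h1 h2

theorem f_xu (c : ℕ) (hc : Lg π.M c) : Fr π n s e w (.g (.xu false c)) := by
  obtain ⟨hM, hn, hs, he, hw⟩ := h
  refine fr_of fun x p q hx b1 b2 b3 => ?_
  simp only [GF.ends, GE.ends, layX, lay, hU_long hc] at b1 b2 b3
  obtain ⟨h1, h2⟩ := b2.2.1 (by linarith)
  exact n_xu hM hn hs he hw hx h1 h2

theorem f_xp : Fr π n s e w (.g (.xp false)) := by
  obtain ⟨hM, hn, hs, he, hw⟩ := h
  have hM1 : (1 : ℝ) ≤ π.M := by linarith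
  refine fr_of fun x p q hx b1 b2 b3 => ?_
  simp only [GF.ends, GE.ends, layX, lay, Bool.not_false, cast_2M hM1] at b1 b2 b3
  obtain ⟨h1, h2⟩ := b2.2.1 (by linarith)
  obtain ⟨h3, h4⟩ := b1.2.1 (by linarith)
  exact n_xp hM hn hs he hw hx h1 h2 (by linarith)

theorem hU_ge {M : ℕ} (hM : (8 : ℝ) ≤ M) (c : ℕ) : 4 ≤ hU M c := by
  unfold hU
  split_ifs <;> linarith

theorem f_up (c : ℕ) (hc : (c : ℝ) + 1 ≤ π.M) : Fr π n s e w (.g (.up false c)) := by
  obtain ⟨hM, hn, hs, he, hw⟩ := h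
  have hU4 : 4 ≤ hU π.M c := by
    unfold hU
    split_ifs <;> linarith
  refine fr_of fun x p q hx b1 b2 b3 => ?_
  simp only [GF.ends, GE.ends, layX, lay] at b1 b2 b3
  obtain ⟨h1, h2⟩ := b2.2.1 (by linarith)
  exact n_up hM hn hs he hw hx hc (b1.2.2 (by push_cast; ring)) h1 h2

theorem f_pd (c : ℕ) (hc : (c : ℝ) + 1 ≤ π.M) : Fr π n s e w (.g (.pd false c)) := by
  obtain ⟨hM, hn, hs, he, hw⟩ := h
  refine fr_of fun x p q hx b1 b2 b3 => ?_
  simp only [GF.ends, GE.ends, layX, lay, GN.D', cond_false] at b1 b2 b3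
  obtain ⟨h1, h2⟩ := b2.1 (by push_cast; linarith)
  have h3 := b1.2.2 (by push_cast; ring)
  push_cast at h1 h2 h3
  exact n_pd hM hn hs he hw hx hc (by linarith) h1 (by linarith)

theorem f_dd (c : ℕ) (hc : (c : ℝ) + 2 ≤ π.M) : Fr π n s e w (.g (.dd false c)) := by
  obtain ⟨hM, hn, hs, he, hw⟩ := h
  refine fr_of fun x p q hx b1 b2 b3 => ?_
  simp only [GF.ends, GE.ends, layX, lay, GN.D', cond_false] at b1 b2 b3
  obtain ⟨h1, h2⟩ := b1.1 (by push_cast; linarith)
  have h3 := b2.2.2 rfl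
  push_cast at h1 h2 h3
  exact n_dd hM hn hs he hw hx hc (by linarith) h1 (by linarith)

theorem f_pp (j : ℕ) : Fr π n s e w (.g (.pp false j)) := by
  obtain ⟨hM, hn, hs, he, hw⟩ := h
  refine fr_of fun x p q hx b1 b2 b3 => ?_
  simp only [GF.ends, GE.ends, layX, lay] at b1 b2 b3
  obtain ⟨h1, h2⟩ := b1.1 (by push_cast; linarith)
  have h3 := b2.2.2 rfl
  push_cast at h1 h2 h3
  exact n_pp hM hn hs he hw hx h3 h1 (by linarith)

theorem f_pc (j : ℕ) (ε : Bool) : Fr π n s e w (.g (.pc false j ε)) := by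
  obtain ⟨hM, hn, hs, he, hw⟩ := h
  refine fr_of fun x p q hx b1 b2 b3 => ?_
  simp only [GF.ends, GE.ends, layX, lay] at b1 b2 b3
  have hε : (-1 : ℝ) < cond ε (-3 / 4) (-1 / 2) ∧ cond ε (-3 / 4) (-1 / 2) ≤ (-1 / 2 : ℝ) := by
    cases ε <;> norm_num
  obtain ⟨h1, h2⟩ := b1.1 (by linarith)
  obtain ⟨h3, h4⟩ := b2.1 hε.1
  exact n_pc hM hn hs he hw hx (j := j) h3 (by linarith) h1 h2

theorem f_pc' (j : ℕ) (ε : Bool) : Fr π n s e w (.g (.pc' false j ε)) := by
  obtain ⟨hM, hn, hs, he, hw⟩ := h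
  refine fr_of fun x p q hx b1 b2 b3 => ?_
  simp only [GF.ends, GE.ends, layX, lay] at b1 b2 b3
  have hε : (-1 : ℝ) < cond ε (-3 / 4) (-1 / 2) ∧ cond ε (-3 / 4) (-1 / 2) ≤ (-1 / 2 : ℝ) := by
    cases ε <;> norm_num
  obtain ⟨h1, h2⟩ := b1.2.1 (by push_cast; linarith)
  obtain ⟨h3, h4⟩ := b2.1 hε.1
  push_cast at h2
  exact n_pc' hM hn hs he hw hx (j := j) h3 (by linarith) h1 (by linarith)

theorem f_cc (j : ℕ) : Fr π n s e w (.g (.cc false j)) := by
  obtain ⟨hM, hn, hs, he, hw⟩ := h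
  refine fr_of fun x p q hx b1 b2 b3 => ?_
  simp only [GF.ends, GE.ends, layX, lay, cond_false, cond_true] at b1 b2 b3
  obtain ⟨h1, h2⟩ := b2.2.1 (by norm_num)
  exact n_cc hM hn hs he hw hx h1 h2

theorem f_uu : Fr π n s e w (.g .uu) := by
  obtain ⟨hM, hn, hs, he, hw⟩ := h
  have hM1 : (1 : ℝ) ≤ π.M := by linarith
  have hl : π.M - 1 < 3 ∨ π.M - 1 + 1 = π.M := by
    have : (1 : ℕ) ≤ π.M := by exact_mod_cast hM1
    omega
  refine fr_of fun x p q hx b1 b2 b3 => ?_
  simp only [GF.ends, GE.ends, layX, lay, hU_long hl, cast_M hM1] at b1 b2 b3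
  obtain ⟨h1, h2⟩ := b1.1 (by linarith)
  obtain ⟨h3, h4⟩ := b2.2.1 (by linarith)
  have h5 := b3.2.2 (by ring)
  exact n_uu hM hn hs he hw hx (by linarith) (by linarith) (by linarith) (by linarith)
    (by linarith)

theorem f_uq (ε : Bool) : Fr π n s e w (.g (.uq false ε)) := by
  obtain ⟨hM, hn, hs, he, hw⟩ := h
  have hM1 : (1 : ℝ) ≤ π.M := by linarith
  have hl : π.M - 1 < 3 ∨ π.M - 1 + 1 = π.M := by
    have : (1 : ℕ) ≤ π.M := by exact_mod_cast hM1
    omega
  refine fr_of fun x p q hx b1 b2 b3 => ?_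
  cases ε with
  | false =>
    simp only [GF.ends, GE.ends, layX, lay, hU_long hl, cast_M hM1] at b1 b2 b3
    obtain ⟨h1, h2⟩ := b1.1 (by linarith)
    obtain ⟨h3, h4⟩ := b2.2.1 (by linarith)
    exact n_uq hM hn hs he hw hx (by linarith) (by linarith) (by linarith) (by linarith)
  | true =>
    simp only [GF.ends, GE.ends, layX, lay, hU_long hl, cast_M hM1] at b1 b2 b3
    obtain ⟨h1, h2⟩ := b1.1 (by linarith)
    obtain ⟨h3, h4⟩ := b2.2.1 (by linarith)
    exact n_uq' hM hn hs he hw hx (by linarith) (by linarith) (by linarith) (by linarith)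

theorem f_qq : Fr π n s e w (.g .qq) := by
  obtain ⟨hM, hn, hs, he, hw⟩ := h
  refine fr_of fun x p q hx b1 b2 b3 => ?_
  simp only [GF.ends, GE.ends, layX, lay] at b1 b2 b3
  obtain ⟨h1, h2⟩ := b1.1 (by linarith)
  obtain ⟨h3, h4⟩ := b2.1 (by linarith)
  exact n_qq hM hn hs he hw hx (by linarith) (by linarith) (by linarith) (by linarith)

theorem f_dr (ε : Bool) : Fr π n s e w (.g (.dr false ε)) := by
  obtain ⟨hM, hn, hs, he, hw⟩ := h
  have hM1 : (1 : ℝ) ≤ π.M := by linarith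
  refine fr_of fun x p q hx b1 b2 b3 => ?_
  cases ε with
  | false =>
    simp only [GF.ends, GE.ends, layX, lay, GN.D', cond_false, Bool.not_false, cast_M hM1,
      hU_long (M := π.M) (c := 0) (Or.inl (by omega)), Nat.cast_zero] at b1 b2 b3
    obtain ⟨h1, h2⟩ := b1.1 (by linarith)
    obtain ⟨h3, h4⟩ := b2.2.1 (by norm_num)
    exact n_dr hM hn hs he hw hx (by linarith) (by linarith) (by linarith) (by linarith)
  | true =>
    simp only [GF.ends, GE.ends, layX, lay, GN.D', cond_false, cond_true, Bool.not_false,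
      hU_long (M := π.M) (c := 1) (Or.inl (by omega)), cast_M hM1, Nat.cast_zero,
      Nat.cast_one] at b1 b2 b3
    obtain ⟨h1, h2⟩ := b1.1 (by linarith)
    obtain ⟨h3, h4⟩ := b2.1 (by norm_num)
    exact n_dr hM hn hs he hw hx (by linarith) (by linarith) (by linarith) (by linarith)

theorem f_uw (c : ℕ) (hc : 3 ≤ c) (hc' : c + 2 ≤ π.M) : Fr π n s e w (.g (.uw false c)) := by
  obtain ⟨hM, hn, hs, he, hw⟩ := h
  refine fr_of fun x p q hx b1 b2 b3 => ?_
  by_cases h3 : c = 3
  · subst h3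
    simp only [GF.ends, GE.ends, layX, lay, if_true, GN.D', cond_false,
      hU_short (M := π.M) (c := 3) (by omega) hc'] at b1 b2 b3
    push_cast at b1 b2 b3
    obtain ⟨h1, h2⟩ := b1.1 (by norm_num)
    have h4 := b2.2.2 (by norm_num)
    exact n_uw hM hn hs he hw hx (c := 3) (le_refl 3) (by linarith)
      (Or.inl ⟨rfl, by linarith⟩) (by push_cast; linarith)
  · have hc4 : 4 ≤ c := by omega
    have hcc : ((c - 1 : ℕ) : ℝ) = (c : ℝ) - 1 := by
      rw [Nat.cast_sub (by omega)]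
      norm_num
    simp only [GF.ends, GE.ends, layX, lay, h3, if_false,
      hU_short (M := π.M) (c := c) (by omega) hc',
      hU_short (M := π.M) (c := c - 1) (by omega) (by omega), hcc] at b1 b2 b3
    obtain ⟨h1, h2⟩ := b1.1 (by linarith)
    have h4 := b2.2.2 rfl
    exact n_uw hM hn hs he hw hx hc (by linarith) (Or.inr (by linarith)) (by linarith)

end

theorem layX_swap (π : Par) (n s e w : ℝ) (x : GX) (hx : x.fr) :
    layX π n s e w x.swap = mir (layX π e w n s x) := by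
  rcases x with ((_ | _) | (_ | _) | ((⟨_ | _, j⟩) | (⟨_ | _, j⟩) | (⟨_ | _, j, ε⟩) | (_ | _) |
    _ | _ | _)) <;>
    first
      | exact absurd hx id
      | simp [layX, lay, GX.swap, GN.swap, mir]

def gswap : GF → GF
  | .ns => .ew
  | .ew => .ns
  | .g c => .g c.swap

theorem gswap_ends (π : Par) (k : GF) (hk : k.fr) :
    s(((gswap k).ends π).1, ((gswap k).ends π).2) = s((k.ends π).1.swap, (k.ends π).2.swap) := by
  rcases k with _ | _ | k
  · rfl
  · rfl
  · rcases k with ⟨_ | _, j⟩ | ⟨_ | _, c⟩ | (_ | _) | ⟨_ | _, c⟩ | ⟨_ | _, c⟩ | ⟨_ | _, c⟩ |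
      ⟨_ | _, j⟩ | ⟨_ | _, j, ε⟩ | ⟨_ | _, j, ε⟩ | ⟨_ | _, j⟩ | _ | ⟨_ | _, ε⟩ | _ |
      ⟨_ | _, ε⟩ | ⟨_ | _, c⟩ | _ | _ | _ | _ | _ <;>
      first
        | exact absurd hk id
        | rfl
        | exact Sym2.eq_swap
        | (simp only [gswap, GF.ends, GE.ends, GE.swap, GX.swap, GN.swap, GN.D']
           split_ifs <;> rfl)

theorem ends_fr (π : Par) (k : GF) (hk : k.fr) : (k.ends π).1.fr ∧ (k.ends π).2.fr := by
  rcases k with _ | _ | k
  · exact ⟨trivial, trivial⟩
  · exact ⟨trivial, trivial⟩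
  · rcases k with ⟨_ | _, j⟩ | ⟨_ | _, c⟩ | (_ | _) | ⟨_ | _, c⟩ | ⟨_ | _, c⟩ | ⟨_ | _, c⟩ |
      ⟨_ | _, j⟩ | ⟨_ | _, j, ε⟩ | ⟨_ | _, j, ε⟩ | ⟨_ | _, j⟩ | _ | ⟨_ | _, ε⟩ | _ |
      ⟨_ | _, ε⟩ | ⟨_ | _, c⟩ | _ | _ | _ | _ | _ <;>
      first
        | exact absurd hk id
        | exact ⟨trivial, trivial⟩
        | (simp only [GF.ends, GE.ends]
           split_ifs <;> exact ⟨trivial, trivial⟩)

theorem fr_swap {π : Par} {n s e w : ℝ} {k : GF} (hk : k.fr) (h : Fr π e w n s k) :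
    Fr π n s e w (gswap k) := by
  intro x p q hx hz
  apply h x.swap q p hx.swap
  have e1 : (⟨p, q⟩ : ℂ) = mir ⟨q, p⟩ := rfl
  obtain ⟨f1, f2⟩ := ends_fr π k hk
  rcases Sym2.eq_iff.1 (gswap_ends π k hk) with ⟨h1, h2⟩ | ⟨h1, h2⟩
  · rw [h1, h2, e1, layX_swap _ _ _ _ _ _ f1, layX_swap _ _ _ _ _ _ f2] at hz
    exact mir_seg hz
  · rw [h1, h2, e1, layX_swap _ _ _ _ _ _ f1, layX_swap _ _ _ _ _ _ f2, openSegment_symm] at hz
    exact mir_seg hz

theorem fr_all {π : Par} {n s e w : ℝ} (h : Big π.M n s e w) (k : GF) (hk : k.valid π)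
    (hf : k.fr) : Fr π n s e w k := by
  have h' : Big π.M e w n s := ⟨h.1, h.2.2.2.1, h.2.2.2.2, h.2.1, h.2.2.1⟩
  have ca : ∀ c : ℕ, c < π.M → (c : ℝ) + 1 ≤ π.M := fun c hc => by exact_mod_cast hc
  have cb : ∀ c : ℕ, c + 1 < π.M → (c : ℝ) + 2 ≤ π.M := fun c hc => by
    have : ((c + 1 + 1 : ℕ) : ℝ) ≤ π.M := by exact_mod_cast hc
    push_cast at this
    linarith
  rcases k with _ | _ | k
  · exact f_ns h
  · exact fr_swap (k := .ns) trivial (f_ns h')
  · rcases k with ⟨_ | _, j⟩ | ⟨_ | _, c⟩ | (_ | _) | ⟨_ | _, c⟩ | ⟨_ | _, c⟩ | ⟨_ | _, c⟩ |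
      ⟨_ | _, j⟩ | ⟨_ | _, j, ε⟩ | ⟨_ | _, j, ε⟩ | ⟨_ | _, j⟩ | _ | ⟨_ | _, ε⟩ | _ |
      ⟨_ | _, ε⟩ | ⟨_ | _, c⟩ | _ | _ | _ | _ | _
    · exact f_yp h j
    · exact fr_swap (k := .g (.yp false j)) hf (f_yp h' j)
    · exact f_xu h c hk.2
    · exact fr_swap (k := .g (.xu false c)) hf (f_xu h' c hk.2)
    · exact f_xp h
    · exact fr_swap (k := .g (.xp false)) hf (f_xp h')
    · exact f_up h c (ca c hk)
    · exact fr_swap (k := .g (.up false c)) hf (f_up h' c (ca c hk))
    · exact f_pd h c (ca c hk)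
    · exact fr_swap (k := .g (.pd false c)) hf (f_pd h' c (ca c hk))
    · exact f_dd h c (cb c hk)
    · exact fr_swap (k := .g (.dd false c)) hf (f_dd h' c (cb c hk))
    · exact f_pp h j
    · exact fr_swap (k := .g (.pp false j)) hf (f_pp h' j)
    · exact f_pc h j ε
    · exact fr_swap (k := .g (.pc false j ε)) hf (f_pc h' j ε)
    · exact f_pc' h j ε
    · exact fr_swap (k := .g (.pc' false j ε)) hf (f_pc' h' j ε)
    · exact f_cc h j
    · exact fr_swap (k := .g (.cc false j)) hf (f_cc h' j)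
    · exact f_uu h
    · exact f_uq h ε
    · exact fr_swap (k := .g (.uq false ε)) hf (f_uq h' ε)
    · exact f_qq h
    · exact f_dr h ε
    · exact fr_swap (k := .g (.dr false ε)) hf (f_dr h' ε)
    · exact f_uw h c hk.1 hk.2
    · exact fr_swap (k := .g (.uw false c)) hf (f_uw h' c hk.1 hk.2)
    all_goals exact absurd hf id

end LV

/-- no vertex lies on an edge of the frame -/
theorem vtx_frame {π : Par} (hM : 8 ≤ π.M) (hT : TReg π) {n s e w : ℝ} (hn : 2 * π.M + 3 < n)
    (hs : 2 * π.M + 3 < s) (he : 2 * π.M + 3 < e) (hw : 2 * π.M + 3 < w) :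
    ∀ k : GF, k.valid π → k.fr → ∀ x : GX, x.ok π →
    layX π n s e w x ∉ openSegment ℝ (layX π n s e w (k.ends π).1)
      (layX π n s e w (k.ends π).2) := by
  intro k hk hf x hx
  exact LV.fr_all ⟨by exact_mod_cast hM, hn, hs, he, hw⟩ k hk hf x _ _ (LV.kd hT hM x hx)

namespace LV

theorem kd_inj {M : ℕ} {n s e w p q : ℝ} (hM : (8 : ℝ) ≤ M) (hn : 2 * M + 3 < n)
    (hs : 2 * M + 3 < s) (he : 2 * M + 3 < e) (hw : 2 * M + 3 < w) {x y : GX} (hf : x.fr)
    (hx : Kd M n s e w x p q) {p' q' : ℝ} (hy : Kd M n s e w y p' q') (h1 : p = p')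
    (h2 : q = q') : x = y := by
  cases hx with
  | xf => cases hy with
    | xf => rfl
    | _ => exfalso; linarith
  | xt => cases hy with
    | xt => rfl
    | _ => exfalso; linarith
  | yf => cases hy with
    | yf => rfl
    | _ => exfalso; linarith
  | yt => cases hy with
    | yt => rfl
    | _ => exfalso; linarith
  | pf j hj => cases hy with
    | pf j' hj' =>
      have e1 : (j : ℝ) = j' := by linarith
      rw [Nat.cast_injective e1]
    | _ => exfalso; linarith
  | pt j hj => cases hy with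
    | pt j' hj' =>
      have e1 : (j : ℝ) = j' := by linarith
      rw [Nat.cast_injective e1]
    | _ => exfalso; linarith
  | ulf j hj => cases hy with
    | ulf j' hj' =>
      have e1 : (j : ℝ) = j' := by linarith
      rw [Nat.cast_injective e1]
    | _ => exfalso; linarith
  | ult j hj => cases hy with
    | ult j' hj' =>
      have e1 : (j : ℝ) = j' := by linarith
      rw [Nat.cast_injective e1]
    | _ => exfalso; linarith
  | usf j hj => cases hy with
    | usf j' hj' =>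
      have e1 : (j : ℝ) = j' := by linarith
      rw [Nat.cast_injective e1]
    | d c r hc hr hcr =>
      exfalso
      rcases hcr with rfl | rfl
      · rw [Nat.cast_zero] at h1; linarith
      · rw [Nat.cast_zero] at h2; linarith
    | _ => exfalso; linarith
  | ust j hj => cases hy with
    | ust j' hj' =>
      have e1 : (j : ℝ) = j' := by linarith
      rw [Nat.cast_injective e1]
    | d c r hc hr hcr =>
      exfalso
      rcases hcr with rfl | rfl
      · rw [Nat.cast_zero] at h1; linarith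
      · rw [Nat.cast_zero] at h2; linarith
    | _ => exfalso; linarith
  | cf j hj => cases hy with
    | cf j' hj' =>
      have e1 : (j : ℝ) = j' := by linarith
      rw [Nat.cast_injective e1]
    | _ => exfalso; linarith
  | cf' j hj => cases hy with
    | cf' j' hj' =>
      have e1 : (j : ℝ) = j' := by linarith
      rw [Nat.cast_injective e1]
    | _ => exfalso; linarith
  | ct j hj => cases hy with
    | ct j' hj' =>
      have e1 : (j : ℝ) = j' := by linarith
      rw [Nat.cast_injective e1]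
    | _ => exfalso; linarith
  | ct' j hj => cases hy with
    | ct' j' hj' =>
      have e1 : (j : ℝ) = j' := by linarith
      rw [Nat.cast_injective e1]
    | _ => exfalso; linarith
  | qf => cases hy with
    | qf => rfl
    | d c r hc hr hcr =>
      exfalso
      rcases hcr with rfl | rfl
      · rw [Nat.cast_zero] at h1; linarith
      · rw [Nat.cast_zero] at h2; linarith
    | _ => exfalso; linarith
  | qt => cases hy with
    | qt => rfl
    | _ => exfalso; linarith
  | d c r hc hr hcr => cases hy with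
    | d c' r' hc' hr' =>
      have e1 : (c : ℝ) = c' := by linarith
      have e2 : (r : ℝ) = r' := by linarith
      rw [Nat.cast_injective e1, Nat.cast_injective e2]
    | _ =>
      exfalso
      rcases hcr with rfl | rfl
      · rw [Nat.cast_zero] at h1; linarith
      · rw [Nat.cast_zero] at h2; linarith
  | ft x p q h => exact absurd hf h

end LV

/-- a vertex of the frame has the position of no other vertex -/
theorem inj_frame {π : Par} (hM : 8 ≤ π.M) (hT : TReg π) {n s e w : ℝ} (hn : 2 * π.M + 3 < n)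
    (hs : 2 * π.M + 3 < s) (he : 2 * π.M + 3 < e) (hw : 2 * π.M + 3 < w) :
    ∀ x y : GX, x.ok π → y.ok π → x.fr → layX π n s e w x = layX π n s e w y → x = y := by
  intro x y hx hy hf h
  exact LV.kd_inj (by exact_mod_cast hM) hn hs he hw hf (LV.kd hT hM x hx) (LV.kd hT hM y hy)
    (congrArg Complex.re h) (congrArg Complex.im h)

end Pool.Agent.Helper58.DG3
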